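import Pool.Agent.Helper77.SND.Stmts

/-!
# Module GL2: the 2-sum of two graphs along an edge
-/

set_option autoImplicit false

namespace Pool.Agent.Helper77.SND

/-- the partial injection used for the 2-sum -/
theorem gl2_tau (V W : Type) (u v : V) (a b : W) (hab : a ≠ b) (huv : u ≠ v) :
    ∃ τ : W → Option V, τ a = some u ∧ τ b = some v ∧
      (∀ w, w ≠ a → w ≠ b → τ w = none) ∧
      (∀ w x, τ w = some x → (w = a ∧ x = u) ∨ (w = b ∧ x = v)) ∧
      (∀ w w' x, τ w = some x → τ w' = some x → w = w') := by
  classical
  refine ⟨fun w => if w = a then some u else if w = b then some v else none, ?_, ?_, ?_, ?_, ?_⟩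
  · simp
  · simp [hab.symm]
  · intro w h1 h2
    simp [h1, h2]
  · intro w x hw
    by_cases h1 : w = a
    · left
      refine ⟨h1, ?_⟩
      simp only [h1, if_true] at hw
      exact (Option.some.inj hw).symm
    · by_cases h2 : w = b
      · right
        refine ⟨h2, ?_⟩
        simp only [h2, hab.symm, if_true, if_false] at hw
        exact (Option.some.inj hw).symm
      · simp [h1, h2] at hw
  · intro w w' x hw hw'
    by_cases h1 : w = a
    · by_cases h1' : w' = a
      · rw [h1, h1']
      · by_cases h2' : w' = b
        · simp only [h1, if_true] at hw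
          simp only [h2', hab.symm, if_true, if_false] at hw'
          exact absurd ((Option.some.inj hw).trans (Option.some.inj hw').symm) huv
        · simp [h1', h2'] at hw'
    · by_cases h2 : w = b
      · by_cases h1' : w' = a
        · simp only [h2, hab.symm, if_true, if_false] at hw
          simp only [h1', if_true] at hw'
          exact absurd ((Option.some.inj hw').trans (Option.some.inj hw).symm) huv
        · by_cases h2' : w' = b
          · rw [h2, h2']
          · simp [h1', h2'] at hw'
      · simp [h1, h2] at hw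

/-- a point through which all solutions go -/
theorem gl2_pt {m : ℕ} (hm : 4 ≤ m) {Z : Type} (f : Fin m → Z) (hf : Function.Injective f)
    (z : Z) : ∃ p : Fin m, ∀ x, f x = z → x = p := by
  by_cases h : ∃ x0, f x0 = z
  · obtain ⟨x0, h0⟩ := h
    exact ⟨x0, fun x hx => hf (hx.trans h0.symm)⟩
  · exact ⟨⟨0, by omega⟩, fun x hx => absurd ⟨x, hx⟩ h⟩

theorem st_GL2 (hGLUE : ST_GLUE) : ST_GL2 := by
  classical
  intro m H hC V W _ _ G S u v a b huv hab
  have hne : a ≠ b := hab.ne
  have hne' : u ≠ v := huv.ne
  obtain ⟨τ, ta, tb, tn, ts, tinj⟩ := gl2_tau V W u v a b hne hne'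
  have hcomp : ∀ w w' x x', τ w = some x → τ w' = some x' → S.Adj w w' → G.Adj x x' := by
    intro w w' x x' h1 h2 h3
    rcases ts w x h1 with ⟨e1, e2⟩ | ⟨e1, e2⟩ <;> rcases ts w' x' h2 with ⟨e3, e4⟩ | ⟨e3, e4⟩
    · exact absurd h3 (by rw [e1, e3]; exact S.irrefl)
    · rw [e2, e4]; exact huv
    · rw [e2, e4]; exact huv.symm
    · exact absurd h3 (by rw [e1, e3]; exact S.irrefl)
  obtain ⟨V', hfin, G', i, j, hi, hj, hji, hcov, hGi, hSj, hpriv, hcol⟩ :=
    hGLUE V W G S τ tinj hcomp
  have hja : j a = i u := (hji a u).2 ta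
  have hjb : j b = i v := (hji b v).2 tb
  have hadjS : ∀ w w', G'.Adj (j w) (j w') → S.Adj w w' := by
    intro w w' h
    cases hτ : τ w with
    | none =>
      obtain ⟨w'', e, hw⟩ := hpriv w _ hτ h
      rw [hj e]
      exact hw
    | some x =>
      cases hτ' : τ w' with
      | none =>
        obtain ⟨w'', e, hw⟩ := hpriv w' _ hτ' h.symm
        rw [hj e]
        exact hw.symm
      | some x' =>
        rcases ts w x hτ with ⟨e1, _⟩ | ⟨e1, _⟩ <;> rcases ts w' x' hτ' with ⟨e3, _⟩ | ⟨e3, _⟩
        · exact absurd h (by rw [e1, e3]; exact G'.irrefl)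
        · rw [e1, e3]; exact hab
        · rw [e1, e3]; exact hab.symm
        · exact absurd h (by rw [e1, e3]; exact G'.irrefl)
  refine ⟨V', hfin, G', i, j, hi, hj, hja, hjb, ?_, ?_, ?_, ?_, hSj, ?_, ?_⟩
  · intro w x h
    exact ts w x ((hji w x).1 h)
  · intro z
    rcases hcov z with h | ⟨w, _, h⟩
    · exact Or.inl h
    · exact Or.inr ⟨w, h⟩
  · intro z z' h
    rcases hcov z with ⟨x, rfl⟩ | ⟨w, hw, rfl⟩
    · rcases hcov z' with ⟨y, rfl⟩ | ⟨w', hw', rfl⟩
      · exact Or.inl ⟨x, y, rfl, rfl, (hGi x y).1 h⟩
      · obtain ⟨w'', e, h2⟩ := hpriv w' _ hw' h.symm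
        exact Or.inr ⟨w'', w', e, rfl, h2.symm⟩
    · obtain ⟨w'', e, h2⟩ := hpriv w _ hw h
      exact Or.inr ⟨w, w'', rfl, e, h2⟩
  · intro x y h
    exact (hGi x y).2 h
  · intro e
    constructor
    · intro hgood
      constructor
      · intro β f hf
        obtain ⟨x, y, h1, h2⟩ := hgood β (fun z => i (f z))
          ⟨hi.comp hf.1, fun x y h => (hGi _ _).2 (hf.2 x y h)⟩
        exact ⟨x, y, h1, h2⟩
      · intro β f hf
        obtain ⟨x, y, h1, h2⟩ := hgood β (fun z => j (f z))
          ⟨hj.comp hf.1, fun x y h => hSj _ _ (hf.2 x y h)⟩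
        exact ⟨x, y, h1, h2⟩
    · rintro ⟨hg1, hg2⟩ β f hf
      obtain ⟨hm, hsep⟩ := hC
      obtain ⟨p, hp⟩ := gl2_pt hm f hf.1 (i u)
      obtain ⟨q, hq⟩ := gl2_pt hm f hf.1 (i v)
      -- all of `f` in the image of `i`
      have key1 : (∀ x, ∃ y, f x = i y) → ∃ x y, H.Adj x y ∧ e s(f x, f y) ≠ β := by
        intro hall
        choose g hg using hall
        have hcopy : Copy H G g := by
          refine ⟨fun x y h => hf.1 (by rw [hg x, hg y, h]), fun x y h => ?_⟩
          have := hf.2 x y h
          rw [hg x, hg y] at this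
          exact (hGi _ _).1 this
        obtain ⟨x, y, h1, h2⟩ := hg1 β g hcopy
        refine ⟨x, y, h1, ?_⟩
        rw [hg x, hg y]
        exact h2
      have key2 : (∀ x, ∃ y, f x = j y) → ∃ x y, H.Adj x y ∧ e s(f x, f y) ≠ β := by
        intro hall
        choose g hg using hall
        have hcopy : Copy H S g := by
          refine ⟨fun x y h => hf.1 (by rw [hg x, hg y, h]), fun x y h => ?_⟩
          have := hf.2 x y h
          rw [hg x, hg y] at this
          exact hadjS _ _ this
        obtain ⟨x, y, h1, h2⟩ := hg2 β g hcopy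
        refine ⟨x, y, h1, ?_⟩
        rw [hg x, hg y]
        exact h2
      by_cases hA : ∃ x, f x ≠ i u ∧ f x ≠ i v ∧ ∃ w, τ w = none ∧ f x = j w
      · by_cases hB : ∃ x, f x ≠ i u ∧ f x ≠ i v ∧ ¬ ∃ w, τ w = none ∧ f x = j w
        · exfalso
          obtain ⟨x, y, hx, hy, hxy⟩ := hsep
            (fun x => if f x = i u ∨ f x = i v then none
              else if ∃ w, τ w = none ∧ f x = j w then some true else some false) p q
            (by
              intro x hx
              by_cases h : f x = i u ∨ f x = i v
              · rcases h with h | h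
                · exact Or.inl (hp x h)
                · exact Or.inr (hq x h)
              · simp only [h, if_false] at hx
                split_ifs at hx)
            (by
              obtain ⟨x, h1, h2, h3⟩ := hA
              refine ⟨x, ?_⟩
              have h : ¬ (f x = i u ∨ f x = i v) := by tauto
              simp only [h, if_false, h3, if_true])
            (by
              obtain ⟨x, h1, h2, h3⟩ := hB
              refine ⟨x, ?_⟩
              have h : ¬ (f x = i u ∨ f x = i v) := by tauto
              simp only [h, if_false, h3])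
          have hx' : ¬ (f x = i u ∨ f x = i v) ∧ ∃ w, τ w = none ∧ f x = j w := by
            by_cases h : f x = i u ∨ f x = i v
            · simp [h] at hx
            · refine ⟨h, ?_⟩
              by_contra h'
              simp [h, h'] at hx
          have hy' : ¬ (f y = i u ∨ f y = i v) ∧ ¬ ∃ w, τ w = none ∧ f y = j w := by
            by_cases h : f y = i u ∨ f y = i v
            · simp [h] at hy
            · refine ⟨h, ?_⟩
              intro h'
              simp only [h, h', if_false, if_true] at hy
              exact absurd (Option.some.inj hy) (by decide)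
          obtain ⟨_, w, hw, hfw⟩ := hx'
          have h1 := hf.2 x y hxy
          rw [hfw] at h1
          obtain ⟨w', e1, _⟩ := hpriv w _ hw h1
          apply hy'.2
          refine ⟨w', ?_, e1⟩
          apply tn w'
          · intro h
            exact hy'.1 (Or.inl (by rw [e1, h, hja]))
          · intro h
            exact hy'.1 (Or.inr (by rw [e1, h, hjb]))
        · apply key2
          intro x
          by_cases h1 : f x = i u
          · exact ⟨a, by rw [h1, hja]⟩
          · by_cases h2 : f x = i v
            · exact ⟨b, by rw [h2, hjb]⟩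
            · have h3 : ∃ w, τ w = none ∧ f x = j w := by
                by_contra h3
                exact hB ⟨x, h1, h2, h3⟩
              obtain ⟨w, _, h4⟩ := h3
              exact ⟨w, h4⟩
      · apply key1
        intro x
        by_cases h1 : f x = i u
        · exact ⟨u, h1⟩
        · by_cases h2 : f x = i v
          · exact ⟨v, h2⟩
          · rcases hcov (f x) with h3 | h3
            · exact h3
            · exact absurd ⟨x, h1, h2, h3⟩ hA
  · intro c d hcd
    apply hcol c d
    intro w w' x x' h1 h2 h3
    rcases ts w x h1 with ⟨e1, e2⟩ | ⟨e1, e2⟩ <;> rcases ts w' x' h2 with ⟨e3, e4⟩ | ⟨e3, e4⟩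
    · exact absurd h3 (by rw [e1, e3]; exact S.irrefl)
    · rw [e1, e2, e3, e4]; exact hcd
    · rw [e1, e2, e3, e4, Sym2.eq_swap, hcd, Sym2.eq_swap]
    · exact absurd h3 (by rw [e1, e3]; exact S.irrefl)

end Pool.Agent.Helper77.SND
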